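import Pool.Agent.helper22.RG9.Spec3

/-!
# Project rg9 (MP_a2a22c_al), row LIN: the family `Z` is linearly independent
-/

set_option autoImplicit false

namespace Pool.Agent.RG9

open Matrix Pool.Agent.H48SL Pool.Agent.UG

/-- the family, extended by zero -/
def LIN_Z {n m : ℕ} (Z : Fin m → Fin m → MQ n) (i j : Fin m) : MQ n := if i < j then Z i j else 0

/-- right bracket with `Z j last` -/
theorem LIN_right {n m : ℕ} (a : Fin (m + 1) → Fin (m + 1) → Submodule ℚ (MQ n)) (Z : Fin (m + 1) → Fin (m + 1) → MQ n) (hL : LGr a)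
    (hZ : Chn a Z) (j : Fin (m + 1)) (h0 : 0 < j) (hj : j < Fin.last m) (l : Fin (m + 1)) :
    LIN_Z Z 0 l * Z j (Fin.last m) - Z j (Fin.last m) * LIN_Z Z 0 l = if l = j then Z 0 (Fin.last m) else 0 := by
  unfold LIN_Z
  by_cases hl : l = j
  · rw [if_pos hl, hl, if_pos h0]
    exact hZ.br 0 j (Fin.last m) h0 hj
  · rw [if_neg hl]
    by_cases h1 : 0 < l
    · rw [if_pos h1, sub_eq_zero]
      refine hL.comm 0 l j (Fin.last m) h1.ne hj.ne hl ?_ _ (hZ.mem 0 l h1) _ (hZ.mem j _ hj)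
      exact (lt_trans h0 hj).ne
    · rw [if_neg h1, zero_mul, mul_zero, sub_zero]

/-- left bracket with `Z 0 i` -/
theorem LIN_left {n m : ℕ} (a : Fin (m + 1) → Fin (m + 1) → Submodule ℚ (MQ n)) (Z : Fin (m + 1) → Fin (m + 1) → MQ n) (hL : LGr a)
    (hZ : Chn a Z) (i : Fin (m + 1)) (h0 : 0 < i) (k l : Fin (m + 1)) :
    Z 0 i * LIN_Z Z k l - LIN_Z Z k l * Z 0 i = if k = i then (if i < l then LIN_Z Z 0 l else 0) else 0 := by
  unfold LIN_Z
  by_cases hkl : k < l
  · rw [if_pos hkl]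
    by_cases hk : k = i
    · rw [if_pos hk, ← hk, if_pos hkl, if_pos (lt_of_le_of_lt (Fin.zero_le k) hkl)]
      rw [hk] at hkl ⊢
      exact hZ.br 0 i l h0 hkl
    · rw [if_neg hk, sub_eq_zero]
      exact hL.comm 0 i k l h0.ne hkl.ne (Ne.symm hk) (lt_of_le_of_lt (Fin.zero_le k) hkl).ne _ (hZ.mem 0 i h0) _ (hZ.mem k l hkl)
  · rw [if_neg hkl, mul_zero, zero_mul, sub_zero]
    by_cases hk : k = i
    · rw [if_pos hk, if_neg (by rw [← hk]; exact hkl)]
    · rw [if_neg hk]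

/-- the row `0` -/
theorem LIN_row {n m : ℕ} (a : Fin (m + 1) → Fin (m + 1) → Submodule ℚ (MQ n)) (Z : Fin (m + 1) → Fin (m + 1) → MQ n) (hL : LGr a)
    (hZ : Chn a Z) (hm : 0 < Fin.last m) (d : Fin (m + 1) → ℚ) (h : ∑ l, d l • LIN_Z Z 0 l = 0) : ∀ l, 0 < l → d l = 0 := by
  have hne := hZ.ne 0 (Fin.last m) hm
  have h1 : ∀ j, 0 < j → j < Fin.last m → d j = 0 := by
    intro j h0 hj
    have h2 : (∑ l, d l • LIN_Z Z 0 l) * Z j (Fin.last m) - Z j (Fin.last m) * (∑ l, d l • LIN_Z Z 0 l) = d j • Z 0 (Fin.last m) := by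
      rw [Finset.sum_mul, Finset.mul_sum, ← Finset.sum_sub_distrib]
      rw [Finset.sum_eq_single j]
      · rw [smul_mul_assoc, mul_smul_comm, ← smul_sub, LIN_right a Z hL hZ j h0 hj j, if_pos rfl]
      · intro l _ hl
        rw [smul_mul_assoc, mul_smul_comm, ← smul_sub, LIN_right a Z hL hZ j h0 hj l, if_neg hl, smul_zero]
      · intro h3
        exact absurd (Finset.mem_univ _) h3
    rw [h, zero_mul, mul_zero, sub_zero] at h2
    exact (smul_eq_zero.1 h2.symm).resolve_right hne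
  intro l hl
  rcases (Fin.le_last l).lt_or_eq with h2 | h2
  · exact h1 l hl h2
  · rw [h2]
    rw [Finset.sum_eq_single (Fin.last m)] at h
    · unfold LIN_Z at h
      rw [if_pos hm] at h
      exact (smul_eq_zero.1 h).resolve_right hne
    · intro b _ hb
      by_cases h0 : 0 < b
      · rw [h1 b h0 (lt_of_le_of_ne (Fin.le_last b) hb), zero_smul]
      · unfold LIN_Z
        rw [if_neg h0, smul_zero]
    · intro h3
      exact absurd (Finset.mem_univ _) h3

theorem LIN_all {n m : ℕ} (a : Fin (m + 1) → Fin (m + 1) → Submodule ℚ (MQ n)) (Z : Fin (m + 1) → Fin (m + 1) → MQ n) (hL : LGr a)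
    (hZ : Chn a Z) (hm : 0 < Fin.last m) (c : Fin (m + 1) → Fin (m + 1) → ℚ) (h : ∑ k, ∑ l, c k l • LIN_Z Z k l = 0) :
    ∀ k l, k < l → c k l = 0 := by
  have h1 : ∀ i, 0 < i → ∀ l, i < l → c i l = 0 := by
    intro i h0 l hl
    have h2 : Z 0 i * (∑ k, ∑ l, c k l • LIN_Z Z k l) - (∑ k, ∑ l, c k l • LIN_Z Z k l) * Z 0 i =
        ∑ l, (if i < l then c i l else 0) • LIN_Z Z 0 l := by
      rw [Finset.sum_mul, Finset.mul_sum, ← Finset.sum_sub_distrib]
      rw [Finset.sum_eq_single i]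
      · rw [Finset.sum_mul, Finset.mul_sum, ← Finset.sum_sub_distrib]
        refine Finset.sum_congr rfl fun l _ => ?_
        rw [smul_mul_assoc, mul_smul_comm, ← smul_sub, LIN_left a Z hL hZ i h0 i l, if_pos rfl]
        split_ifs
        · rfl
        · rw [smul_zero, zero_smul]
      · intro k _ hk
        rw [Finset.sum_mul, Finset.mul_sum, ← Finset.sum_sub_distrib]
        refine Finset.sum_eq_zero fun l _ => ?_
        rw [smul_mul_assoc, mul_smul_comm, ← smul_sub, LIN_left a Z hL hZ i h0 k l, if_neg hk, smul_zero]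
      · intro h3
        exact absurd (Finset.mem_univ _) h3
    rw [h, zero_mul, mul_zero, sub_zero] at h2
    have h3 := LIN_row a Z hL hZ hm (fun l => if i < l then c i l else 0) h2.symm l (lt_trans h0 hl)
    simp only [if_pos hl] at h3
    exact h3
  intro k l hkl
  by_cases hk : 0 < k
  · exact h1 k hk l hkl
  · have hk0 : k = 0 := le_antisymm (not_lt.1 hk) (Fin.zero_le k)
    rw [hk0] at hkl ⊢
    refine LIN_row a Z hL hZ hm (fun l => c 0 l) ?_ l hkl
    rw [Finset.sum_eq_single 0] at h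
    · exact h
    · intro i _ hi
      have hi0 : 0 < i := Fin.pos_iff_ne_zero.2 hi
      refine Finset.sum_eq_zero fun l _ => ?_
      by_cases h2 : i < l
      · rw [h1 i hi0 l h2, zero_smul]
      · unfold LIN_Z
        rw [if_neg h2, smul_zero]
    · intro h3
      exact absurd (Finset.mem_univ _) h3

theorem LIN : LIN_stmt := by
  intro n m a Z hm hL hZ
  obtain ⟨m', rfl⟩ : ∃ m', m = m' + 1 := ⟨m - 1, by omega⟩
  rw [Fintype.linearIndependent_iff]
  intro g hg p
  let c : Fin (m' + 1) → Fin (m' + 1) → ℚ := fun k l => if h : k < l then g ⟨(k, l), h⟩ else 0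
  have hlast : (0 : Fin (m' + 1)) < Fin.last m' := by
    rw [Fin.lt_def]
    show 0 < m'
    omega
  have h1 : ∑ k, ∑ l, c k l • LIN_Z Z k l = 0 := by
    rw [← Fintype.sum_prod_type (f := fun q : Fin (m' + 1) × Fin (m' + 1) => c q.1 q.2 • LIN_Z Z q.1 q.2)]
    rw [← hg]
    have h2 : ∑ q : Fin (m' + 1) × Fin (m' + 1), c q.1 q.2 • LIN_Z Z q.1 q.2 =
        ∑ q ∈ (Finset.univ : Finset (Fin (m' + 1) × Fin (m' + 1))).filter (fun q => q.1 < q.2), c q.1 q.2 • LIN_Z Z q.1 q.2 := by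
      symm
      apply Finset.sum_filter_of_ne
      intro q _ hq
      by_contra h3
      apply hq
      unfold LIN_Z
      rw [if_neg h3, smul_zero]
    rw [h2, Finset.sum_subtype (p := fun q : Fin (m' + 1) × Fin (m' + 1) => q.1 < q.2) _ (by simp)]
    refine Finset.sum_congr rfl fun q _ => ?_
    have h4 : c q.1.1 q.1.2 = g q := by
      show (if h : q.1.1 < q.1.2 then g ⟨(q.1.1, q.1.2), h⟩ else 0) = g q
      rw [dif_pos q.2]
    rw [h4]
    unfold LIN_Z
    rw [if_pos q.2]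
  have h5 := LIN_all a Z hL hZ hlast c h1 p.1.1 p.1.2 p.2
  have h6 : c p.1.1 p.1.2 = g p := by
    show (if h : p.1.1 < p.1.2 then g ⟨(p.1.1, p.1.2), h⟩ else 0) = g p
    rw [dif_pos p.2]
  rw [← h6]
  exact h5

end Pool.Agent.RG9
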